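import Pool.Agent.W525.CB.Stm

/-!
# Project CB, part SEC: rational functions that are regular at all points of an open set
-/

open AlgebraicGeometry CategoryTheory Order TopologicalSpace Opposite

namespace Pool.Agent.W446.CB.SEC

open Pool.Agent.H187R3 Pool.Agent.W525.CB

theorem main : S_SEC := by
  intro X _ E _ κ U hη e he
  have hκ : Function.Injective κ := κ.injective
  obtain ⟨a0, ha0⟩ := he _ hη
  obtain ⟨φ, hφ⟩ : ∃ φ : X.functionField, κ φ = e := ⟨_, ha0⟩
  have h1 : ∀ x : U, ∃ (V : X.Opens) (_ : V ≤ U) (_ : x.1 ∈ V) (hg : genericPoint X ∈ V)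
      (s : Γ(X, V)), X.presheaf.germ V (genericPoint X) hg s = φ := by
    intro x
    obtain ⟨a, ha⟩ := he x.1 x.2
    obtain ⟨V, hV, m, s, hs⟩ := X.presheaf.exists_le_germ_eq a x.2
    have hg : genericPoint X ∈ V :=
      ((genericPoint_spec X).mem_open_set_iff V.isOpen).mpr ⟨x.1, trivial, m⟩
    refine ⟨V, hV, m, hg, s, ?_⟩
    apply hκ
    have h2 : algebraMap (X.presheaf.stalk x.1) X.functionField (X.presheaf.germ V x.1 m s) =
        X.presheaf.germ V (genericPoint X) hg s := by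
      have : Nonempty V := ⟨⟨_, m⟩⟩
      exact Scheme.algebraMap_germ_eq_germToFunctionField X m s
    rw [← h2, hφ, ← ha]
    change κ (algebraMap _ _ _) = κ (algebraMap _ _ _)
    rw [← hs]
  choose V hVU hm hg s hs using h1
  have hcover : U ≤ iSup V := by
    intro x hx
    rw [Opens.mem_iSup]
    exact ⟨⟨x, hx⟩, hm ⟨x, hx⟩⟩
  have ic : TopCat.Presheaf.IsCompatible X.sheaf.obj V s := by
    intro x y
    apply germ_injective_of_isIntegral X (genericPoint X)
      (show genericPoint X ∈ V x ⊓ V y from ⟨hg x, hg y⟩)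
    have e1 := TopCat.Presheaf.germ_res_apply X.presheaf (Opens.infLELeft (V x) (V y))
      (genericPoint X) (show genericPoint X ∈ V x ⊓ V y from ⟨hg x, hg y⟩) (s x)
    have e2 := TopCat.Presheaf.germ_res_apply X.presheaf (Opens.infLERight (V x) (V y))
      (genericPoint X) (show genericPoint X ∈ V x ⊓ V y from ⟨hg x, hg y⟩) (s y)
    exact e1.trans ((hs x).trans ((hs y).symm.trans e2.symm))
  obtain ⟨gl, gl_spec, -⟩ :=
    X.sheaf.existsUnique_gluing' V U (fun x => homOfLE (hVU x)) hcover s ic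
  refine ⟨hη, gl, ?_⟩
  have e3 := TopCat.Presheaf.germ_res_apply X.presheaf (homOfLE (hVU ⟨_, hη⟩))
    (genericPoint X) (hg ⟨_, hη⟩) gl
  have e4 : X.presheaf.map (homOfLE (hVU ⟨_, hη⟩)).op gl = s ⟨_, hη⟩ := gl_spec ⟨_, hη⟩
  rw [e4] at e3
  rw [← hφ, ← hs ⟨_, hη⟩]
  exact congrArg κ e3.symm

end Pool.Agent.W446.CB.SEC
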